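import Mathlib
import Pool.Agent.Lib.helper11.NetDet

namespace Pool.Agent.Results.MP_b60f31_al.Bound

open Matrix Pool.Agent.Lib.helper11.NetDet

/-- The equations of `W_n`: `x_i = 1`, and `x_i + x_j = x_k` with `i ≤ j`. -/
abbrev Eqn (n : ℕ) : Type := Fin n ⊕ {t : Fin n × Fin n × Fin n // t.1 ≤ t.2.1}

/-- The row of coefficients of an equation. -/
def row {n : ℕ} : Eqn n → Fin n → ℤ
  | Sum.inl i => Pi.single i 1
  | Sum.inr t => Pi.single t.1.1 1 + Pi.single t.1.2.1 1 - Pi.single t.1.2.2 1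

/-- The right-hand side of an equation. -/
def rhs {n : ℕ} : Eqn n → ℤ
  | Sum.inl _ => 1
  | Sum.inr _ => 0

/-- The matrix `A` of a system `S ⊆ W_n`. -/
def matA {n : ℕ} (S : Finset (Eqn n)) : Matrix S (Fin n) ℝ := fun e j => (row e.1 j : ℝ)

/-- The vector `b` of a system `S ⊆ W_n`. -/
def vecB {n : ℕ} (S : Finset (Eqn n)) : S → ℝ := fun e => (rhs e.1 : ℝ)

/-- The four Penrose equations characterising the Moore–Penrose pseudoinverse. -/
def IsPseudoinverse {ι κ : Type} [Fintype ι] [Fintype κ] (A : Matrix ι κ ℝ) (P : Matrix κ ι ℝ) :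
    Prop :=
  A * P * A = A ∧ P * A * P = P ∧ (A * P)ᵀ = A * P ∧ (P * A)ᵀ = P * A

lemma ls_bound {n : ℕ} {ι : Type} [Fintype ι] [DecidableEq ι] (B : Matrix ι (Fin n) ℤ)
    (c : ι → ℤ) (d : ι → ℝ)
    (h : ∀ r, (∃ i, B r = Pi.single i 1 ∧ (c r = 0 ∨ c r = 1)) ∨
      ∃ i j k, B r = Pi.single i 1 + Pi.single j 1 - Pi.single k 1 ∧ c r = 0)
    (M : Matrix ι (Fin n) ℝ) (hM : ∀ r j, M r j = d r * B r j) (x : Fin n → ℝ)
    (hx : (Mᵀ * M) *ᵥ x = Mᵀ *ᵥ fun r => d r * c r) (hd : (Mᵀ * M).det ≠ 0) (m : Fin n) :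
    |x m| ≤ 2 ^ (n - 1) := by
  have h1 : (Mᵀ * M).det * x m = (Mᵀ * M.updateCol m fun r => d r * c r).det := by
    have e1 : cramer (Mᵀ * M) ((Mᵀ * M) *ᵥ x) = (Mᵀ * M).det • x := by
      rw [cramer_eq_adjugate_mulVec, mulVec_mulVec, adjugate_mul, smul_mulVec, one_mulVec]
    have e2 := congrFun e1 m
    rw [cramer_apply, hx] at e2
    rw [← smul_eq_mul, ← Pi.smul_apply, ← e2]
    congr 1
    ext i j
    by_cases hj : j = m
    · subst hj
      simp [mul_apply, mulVec, dotProduct]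
    · simp [mul_apply, updateCol_ne hj]
  have h2 : ∀ f : Fin n → ι, |(M.submatrix f id).det *
      ((M.updateCol m fun r => d r * c r).submatrix f id).det| ≤
        2 ^ (n - 1) * ((M.submatrix f id).det * (M.submatrix f id).det) := by
    intro f
    have e1 : (M.submatrix f id).det = (∏ i, d (f i)) * ((B.submatrix f id).det : ℝ) := by
      rw [Int.cast_det, ← det_mul_column]
      congr 1
      ext i j
      simp [hM]
    have e2 : ((M.updateCol m fun r => d r * c r).submatrix f id).det =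
        (∏ i, d (f i)) * (((B.submatrix f id).updateCol m (c ∘ f)).det : ℝ) := by
      rw [Int.cast_det, ← det_mul_column]
      congr 1
      ext i j
      by_cases hj : j = m
      · subst hj
        simp
      · simp [updateCol_ne hj, hM]
    have e3 := abs_det_updateCol_le (B.submatrix f id) (c ∘ f) m fun r => h (f r)
    rw [e1, e2]
    generalize (B.submatrix f id).det = a at *
    generalize ((B.submatrix f id).updateCol m (c ∘ f)).det = b at *
    generalize ∏ i, d (f i) = p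
    have e4 : |a * b| ≤ 2 ^ (n - 1) * (a * a) := by
      rw [abs_mul, mul_comm]
      exact mul_le_mul e3 (by rw [← abs_mul_abs_self, ← sq]; exact Int.le_self_sq _) (abs_nonneg _)
        (by positivity)
    have e5 : |(a : ℝ) * b| ≤ 2 ^ (n - 1) * (a * a) := by exact_mod_cast e4
    calc |p * a * (p * b)| = p * p * |(a : ℝ) * b| := by
          rw [← abs_mul_self p, ← abs_mul]
          ring_nf
      _ ≤ p * p * (2 ^ (n - 1) * (a * a)) := mul_le_mul_of_nonneg_left e5 (mul_self_nonneg p)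
      _ = _ := by ring
  have h3 := cauchy_binet M M
  have h4 := cauchy_binet M (M.updateCol m fun r => d r * c r)
  have h5 : 0 ≤ (n.factorial : ℝ) * (Mᵀ * M).det := by
    rw [h3]
    exact Finset.sum_nonneg fun f _ => mul_self_nonneg _
  have h6 : 0 < (n.factorial : ℝ) * (Mᵀ * M).det :=
    lt_of_le_of_ne h5 (mul_ne_zero (by exact_mod_cast n.factorial_ne_zero) hd).symm
  have h7 : |(n.factorial : ℝ) * (Mᵀ * M).det * x m| ≤
      2 ^ (n - 1) * ((n.factorial : ℝ) * (Mᵀ * M).det) := by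
    rw [mul_assoc, h1, h4, h3, Finset.mul_sum]
    exact (Finset.abs_sum_le_sum_abs _ _).trans (Finset.sum_le_sum fun f _ => h2 f)
  rw [abs_mul, abs_of_pos h6, mul_comm] at h7
  exact le_of_mul_le_mul_right h7 h6

theorem result (n : ℕ) (S : Finset (Eqn n)) (P : Matrix (Fin n) S ℝ)
    (hP : IsPseudoinverse (matA S) P) (m : Fin n) :
    -(2 : ℝ) ^ (n - 1) ≤ (P *ᵥ vecB S) m ∧ (P *ᵥ vecB S) m ≤ 2 ^ (n - 1) := by
  classical
  rw [← abs_le]
  obtain ⟨p1, p2, p3, p4⟩ := hP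
  set A := matA S with hA
  set b := vecB S with hb
  have q1 : Aᵀ * A * P = Aᵀ := by
    rw [Matrix.mul_assoc, ← p3, ← transpose_mul, p1]
  let z := (P * Pᵀ * P) *ᵥ b
  have q2 : (Aᵀ * A) *ᵥ z = P *ᵥ b := by
    rw [mulVec_mulVec, ← Matrix.mul_assoc, ← Matrix.mul_assoc, q1, ← transpose_mul, p4, p2]
  have q3 : (Aᵀ * A) *ᵥ (P *ᵥ b) = Aᵀ *ᵥ b := by rw [mulVec_mulVec, q1]
  have hq : ∀ (δ : ℝ) (w : Fin n → ℝ), δ ^ 2 * (w ⬝ᵥ w) ≤
      w ⬝ᵥ ((Aᵀ * A + δ ^ 2 • (1 : Matrix (Fin n) (Fin n) ℝ)) *ᵥ w) := by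
    intro δ w
    rw [add_mulVec, dotProduct_add, smul_mulVec, one_mulVec, dotProduct_smul, smul_eq_mul,
      ← mulVec_mulVec, dotProduct_mulVec, vecMul_transpose]
    have : 0 ≤ (A *ᵥ w) ⬝ᵥ (A *ᵥ w) := Finset.sum_nonneg fun i _ => mul_self_nonneg _
    linarith
  have key : ∀ δ : ℝ, 0 < δ → |(P *ᵥ b) m| ≤ 2 ^ (n - 1) + δ ^ 2 * (|z m| + √(z ⬝ᵥ z)) := by
    intro δ hδ
    let G := Aᵀ * A + δ ^ 2 • (1 : Matrix (Fin n) (Fin n) ℝ)
    have hG : G.det ≠ 0 := by
      intro h0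
      obtain ⟨w, hw, hw'⟩ := exists_mulVec_eq_zero_iff.2 h0
      have := hq δ w
      rw [hw', dotProduct_zero] at this
      have h1 : 0 ≤ w ⬝ᵥ w := Finset.sum_nonneg fun i _ => mul_self_nonneg _
      have h2 : w ⬝ᵥ w = 0 := by
        have := pow_pos hδ 2
        nlinarith
      exact hw (dotProduct_self_eq_zero.1 h2)
    let x := G⁻¹ *ᵥ (Aᵀ *ᵥ b)
    have hx : G *ᵥ x = Aᵀ *ᵥ b := by
      rw [mulVec_mulVec, mul_nonsing_inv _ (isUnit_iff_ne_zero.2 hG), one_mulVec]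
    let M : Matrix (S ⊕ Fin n) (Fin n) ℝ := fromRows A (δ • (1 : Matrix (Fin n) (Fin n) ℝ))
    have hMG : Mᵀ * M = G := by
      simp only [M, G, transpose_fromRows, fromCols_mul_fromRows, transpose_smul, transpose_one,
        smul_mul_smul_comm, Matrix.mul_one, sq]
    have hxm : |x m| ≤ 2 ^ (n - 1) := by
      refine ls_bound (ι := S ⊕ Fin n) (fun r => Sum.elim (fun e => row e.1)
        (fun j => Pi.single j 1) r) (Sum.elim (fun e => rhs e.1) 0) (Sum.elim 1 fun _ => δ)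
        ?_ M ?_ x ?_ (hMG ▸ hG) m
      · rintro (⟨i | t, _⟩ | j)
        · exact Or.inl ⟨i, rfl, Or.inr rfl⟩
        · exact Or.inr ⟨_, _, _, rfl, rfl⟩
        · exact Or.inl ⟨j, rfl, Or.inl rfl⟩
      · rintro (e | j) k
        · simp [M, hA, matA]
        · simp [M, one_apply, Pi.single_apply, eq_comm]
      · rw [hMG, hx]
        funext i
        simp [M, mulVec, dotProduct, hb, vecB]
    let w := P *ᵥ b - x - δ ^ 2 • z
    have hw : G *ᵥ w = -(δ ^ 2 * δ ^ 2) • z := by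
      simp only [w, mulVec_sub, hx, mulVec_smul]
      simp only [G, add_mulVec, q2, q3, smul_mulVec, one_mulVec]
      module
    have h1 := hq δ w
    rw [hw, dotProduct_smul, smul_eq_mul] at h1
    have h2 : w ⬝ᵥ w ≤ δ ^ 2 * -(w ⬝ᵥ z) := by
      have := pow_pos hδ 2
      nlinarith
    have h3 : 0 ≤ (w + δ ^ 2 • z) ⬝ᵥ (w + δ ^ 2 • z) :=
      Finset.sum_nonneg fun i _ => mul_self_nonneg _
    simp only [add_dotProduct, dotProduct_add, smul_dotProduct, dotProduct_smul, smul_eq_mul,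
      dotProduct_comm z w] at h3
    have h4 : w ⬝ᵥ w ≤ δ ^ 2 * δ ^ 2 * (z ⬝ᵥ z) := by nlinarith
    have h5 : w m * w m ≤ w ⬝ᵥ w :=
      Finset.single_le_sum (f := fun i => w i * w i) (fun i _ => mul_self_nonneg _)
        (Finset.mem_univ m)
    have hz : 0 ≤ z ⬝ᵥ z := Finset.sum_nonneg fun i _ => mul_self_nonneg _
    have h6 : |w m| ≤ δ ^ 2 * √(z ⬝ᵥ z) := by
      refine abs_le_of_sq_le_sq' ?_ (by positivity) |> abs_le.2
      rw [mul_pow, Real.sq_sqrt hz]
      nlinarith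
    have h7 : (P *ᵥ b) m = x m + δ ^ 2 * z m + w m := by simp [w]
    rw [h7]
    have h8 := abs_add_three (x m) (δ ^ 2 * z m) (w m)
    rw [abs_mul, abs_of_pos (pow_pos hδ 2)] at h8
    linarith
  refine le_of_forall_pos_le_add fun ε hε => ?_
  set C := |z m| + √(z ⬝ᵥ z)
  have hC : 0 ≤ C := by positivity
  refine (key √(ε / (C + 1)) (by positivity)).trans (add_le_add_right ?_ _)
  rw [Real.sq_sqrt (by positivity), div_mul_eq_mul_div, div_le_iff₀ (by positivity)]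
  nlinarith

end Pool.Agent.Results.MP_b60f31_al.Bound
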